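import Mathlib

set_option autoImplicit false

namespace Pool.Agent.Results.MP_5cf805_al.Two

open Submodule

universe u v

variable {F : Type u} {V : Type v} [Field F] [AddCommGroup V] [Module F V]

def IsFilter (S : Set (Submodule F V)) : Prop :=
  ⊤ ∈ S ∧ ⊥ ∉ S ∧ (∀ U W, U ∈ S → U ≤ W → W ∈ S) ∧ ∀ U W, U ∈ S → W ∈ S → U ⊓ W ∈ S

def IsIdeal (S : Set (Submodule F V)) : Prop :=
  ⊥ ∈ S ∧ ⊤ ∉ S ∧ (∀ U W, U ∈ S → W ≤ U → W ∈ S) ∧ ∀ U W, U ∈ S → W ∈ S → U ⊔ W ∈ S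

/-- the translate `S g` -/
def tr (S : Set (Submodule F V)) (g : V ≃ₗ[F] V) : Set (Submodule F V) := (fun U => U.map (g : V →ₗ[F] V)) '' S

/-- `GL(V)` is `k`-transitive on the orbit of `S` -/
def KTrans (k : ℕ) (S : Set (Submodule F V)) : Prop :=
  ∀ a b : Fin k → Set (Submodule F V), (∀ i, ∃ g, a i = tr S g) → (∀ i, ∃ g, b i = tr S g) →
    a.Injective → b.Injective → ∃ g, ∀ i, tr (a i) g = b i

lemma mem_tr {S : Set (Submodule F V)} {g : V ≃ₗ[F] V} {X : Submodule F V} :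
    X ∈ tr S g ↔ X.comap (g : V →ₗ[F] V) ∈ S :=
  ⟨fun ⟨U, h, e⟩ => by rwa [← e, comap_map_eq_of_injective g.injective],
    fun h => ⟨_, h, map_comap_eq_of_surjective g.surjective X⟩⟩

lemma IsFilter.tr {S : Set (Submodule F V)} (h : IsFilter S) (g : V ≃ₗ[F] V) : IsFilter (tr S g) := by
  refine ⟨by simpa [mem_tr] using h.1, by simpa [mem_tr] using h.2.1, fun U W a b => ?_, fun U W a b => ?_⟩ <;>
    rw [mem_tr] at *
  exacts [h.2.2.1 _ _ a (comap_mono b), h.2.2.2 _ _ a b]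

lemma IsIdeal.tr {S : Set (Submodule F V)} (h : IsIdeal S) (g : V ≃ₗ[F] V) : IsIdeal (tr S g) := by
  refine ⟨by simpa [mem_tr] using h.1, by simpa [mem_tr] using h.2.1, fun U W a b => ?_, fun U W a b => ?_⟩ <;>
    rw [mem_tr] at *
  · exact h.2.2.1 _ _ a (comap_mono b)
  · rw [comap_equiv_eq_map_symm] at *
    rw [Submodule.map_sup]; exact h.2.2.2 _ _ a b

variable {Q : Type v} [AddCommGroup Q] [Module F Q] {k : ℕ}

def sw (e : V ≃ₗ[F] (Fin k → Q)) (i j : Fin k) : V ≃ₗ[F] V :=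
  e ≪≫ₗ LinearEquiv.funCongrLeft F Q (Equiv.swap i j) ≪≫ₗ e.symm

lemma sw_apply (e : V ≃ₗ[F] (Fin k → Q)) (i j l : Fin k) (x : V) : e (sw e i j x) l = e x (Equiv.swap i j l) := by
  simp [sw]

/-- adds coordinate `i` to coordinate `j` -/
noncomputable def sh (e : V ≃ₗ[F] (Fin k → Q)) (i j : Fin k) (h : i ≠ j) : V ≃ₗ[F] V :=
  e ≪≫ₗ LinearEquiv.ofLinearMap (LinearMap.id + LinearMap.single F (fun _ => Q) j ∘ₗ LinearMap.proj i)
    (LinearMap.id - LinearMap.single F (fun _ => Q) j ∘ₗ LinearMap.proj i)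
    (LinearMap.ext fun x => by simp [Pi.single_eq_of_ne h])
    (LinearMap.ext fun x => by simp [Pi.single_eq_of_ne h]) ≪≫ₗ e.symm

lemma sh_apply (e : V ≃ₗ[F] (Fin k → Q)) (i j l : Fin k) (h : i ≠ j) (x : V) :
    e (sh e i j h x) l = e x l + if l = j then e x i else 0 := by
  simp [sh, Pi.single_apply]

def K (e : V ≃ₗ[F] (Fin k → Q)) (i : Fin k) : Submodule F V :=
  LinearMap.ker (LinearMap.proj i ∘ₗ (e : V →ₗ[F] (Fin k → Q)))

lemma mem_K {e : V ≃ₗ[F] (Fin k → Q)} {i : Fin k} {x : V} : x ∈ K e i ↔ e x i = 0 := by simp [K]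

def P (e : V ≃ₗ[F] (Fin k → Q)) (i : Fin k) : Submodule F V := ⨅ l, ⨅ (_ : l ≠ i), K e l

lemma mem_P {e : V ≃ₗ[F] (Fin k → Q)} {i : Fin k} {x : V} : x ∈ P e i ↔ ∀ l, l ≠ i → e x l = 0 := by
  simp [P, mem_K]

lemma inj (a : Fin k → Set (Submodule F V)) (ha : a.Injective) (q : Fin k) (c : Set (Submodule F V))
    (hc : ∀ i, i ≠ q → a i ≠ c) : (Function.update a q c).Injective := by
  intro i j h
  by_cases hi : i = q <;> by_cases hj : j = q
  · rw [hi, hj]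
  · subst hi; rw [Function.update_self, Function.update_of_ne hj] at h; exact absurd h.symm (hc j hj)
  · subst hj; rw [Function.update_self, Function.update_of_ne hi] at h; exact absurd h (hc i hi)
  · rw [Function.update_of_ne hi, Function.update_of_ne hj] at h; exact ha h

lemma orb (S : Set (Submodule F V)) (a : Fin k → V ≃ₗ[F] V) (q : Fin k) (c : V ≃ₗ[F] V) (i : Fin k) :
    ∃ g, Function.update (fun i => tr S (a i)) q (tr S c) i = tr S g := by
  by_cases hi : i = q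
  · exact ⟨c, by rw [hi, Function.update_self]⟩
  · exact ⟨a i, by rw [Function.update_of_ne hi]⟩

lemma coreF {S : Set (Submodule F V)} (h : IsFilter S) (e : V ≃ₗ[F] (Fin k → Q)) (o p q : Fin k) (op : o ≠ p)
    (oq : o ≠ q) (pq : p ≠ q) (hU : P e o ∈ S) : ¬ KTrans k S := by
  have nz : ∀ {T : Set (Submodule F V)}, IsFilter T → ∀ X ∈ T, ∃ x ∈ X, x ≠ 0 := fun hT X hX =>
    exists_mem_ne_zero_of_ne_bot fun c => hT.2.1 (c ▸ hX)
  have z : ∀ x, x ∈ P e o → e x o = 0 → x = 0 := fun x hx h0 => e.map_eq_zero_iff.1 <| funext fun l => by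
    by_cases c : l = o
    exacts [c ▸ h0, mem_P.1 hx l c]
  have hP : ∀ i, P e i ∈ tr S (sw e o i) := fun i => mem_tr.2 <| h.2.2.1 _ _ hU fun x hx => mem_P.2 fun l hl => by
    refine (sw_apply e o i l x).trans (mem_P.1 hx _ fun c => hl ?_)
    rw [Equiv.swap_apply_eq_iff] at c; simpa using c
  have I : (fun i => tr S (sw e o i)).Injective := fun i j c => by
    by_contra ij
    obtain ⟨x, ⟨hi, hj⟩, x0⟩ := nz (h.tr _) _ ((h.tr _).2.2.2 _ _ (hP i) ((show tr S _ = tr S _ from c) ▸ hP j))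
    refine x0 (e.map_eq_zero_iff.1 <| funext fun l => ?_)
    by_cases c : l = i
    exacts [mem_P.1 hj l (c ▸ ij), mem_P.1 hi l c]
  intro T
  obtain ⟨g, hg⟩ := T (fun i => tr S (sw e o i)) _ (fun i => ⟨_, rfl⟩) (orb S _ q (sh e o p op)) I
    (inj _ I q _ fun i _ c => by
      obtain ⟨x, ⟨hi, hj⟩, x0⟩ := nz h _ (h.2.2.2 _ _ hU (mem_tr.1 (c ▸ hP i)))
      refine x0 (z x hi ?_)
      by_cases io : o = i
      · have := mem_P.1 hj p (io ▸ op.symm)
        simpa [sh_apply, mem_P.1 hi p op.symm] using this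
      · have := mem_P.1 hj o io
        simpa [sh_apply, op] using this)
  have m0 : (P e o).map (g : V →ₗ[F] V) ∈ tr S (sw e o o) := by
    have := hg o; rw [Function.update_of_ne oq] at this; exact this ▸ ⟨_, hP o, rfl⟩
  have m1 : (P e p).map (g : V →ₗ[F] V) ∈ tr S (sw e o p) := by
    have := hg p; rw [Function.update_of_ne pq] at this; exact this ▸ ⟨_, hP p, rfl⟩
  have m2 : (P e q).map (g : V →ₗ[F] V) ∈ tr S (sh e o p op) := by
    have := hg q; rw [Function.update_self] at this; exact this ▸ ⟨_, hP q, rfl⟩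
  obtain ⟨x, ⟨hx, ⟨a, ha, ea⟩, ⟨b, hb, eb⟩, ⟨c, hc, ec⟩⟩, x0⟩ := nz h _
    (h.2.2.2 _ _ hU (h.2.2.2 _ _ (mem_tr.1 m0) (h.2.2.2 _ _ (mem_tr.1 m1) (mem_tr.1 m2))))
  simp only [LinearEquiv.coe_coe] at ea eb ec
  have s : c = a + b := g.injective <| e.injective <| funext fun l => by
    rw [map_add, map_add, Pi.add_apply, ea, eb, ec, sh_apply, sw_apply, sw_apply, Equiv.swap_self]
    by_cases c : l = p
    · simp [c]
    · rw [if_neg c, mem_P.1 hx (Equiv.swap o p l) (by rw [Ne, Equiv.swap_apply_eq_iff]; simpa using c)]; rfl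
  have c0 : c = 0 := e.map_eq_zero_iff.1 <| funext fun l => by
    by_cases d : l = q
    · rw [s, map_add, Pi.add_apply, mem_P.1 ha l (d ▸ oq.symm), mem_P.1 hb l (d ▸ pq.symm)]; simp
    · exact mem_P.1 hc l d
  rw [c0, map_zero] at ec
  exact x0 ((sh e o p op).map_eq_zero_iff.1 ec.symm)

lemma coreI {S : Set (Submodule F V)} (h : IsIdeal S) (e : V ≃ₗ[F] (Fin k → Q)) (o p q : Fin k) (op : o ≠ p)
    (oq : o ≠ q) (pq : p ≠ q) (hU : K e o ∈ S) : ¬ KTrans k S := by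
  have hK : ∀ i, K e i ∈ tr S (sw e o i) := fun i => mem_tr.2 <| h.2.2.1 _ _ hU fun x hx => mem_K.2 <| by
    simpa [sw_apply] using mem_K.1 hx
  have sup : ∀ (X : Submodule F V) (i : Fin k), (∀ y, ∃ x ∈ X, e x i = y) → X ⊔ K e i = ⊤ := fun X i hX =>
    eq_top_iff.2 fun y _ => by
      obtain ⟨x, hx, ex⟩ := hX (e y i)
      exact mem_sup.2 ⟨x, hx, y - x, mem_K.2 (by simp [ex]), by simp⟩
  have I : (fun i => tr S (sw e o i)).Injective := fun i j c => by
    by_contra ij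
    refine (h.tr _).2.1 (sup (K e i) j (fun y => ⟨e.symm (Pi.single j y), mem_K.2 (by simp [ij]), by simp⟩) ▸
      (h.tr _).2.2.2 _ _ (hK i) ((show tr S _ = tr S _ from c) ▸ hK j))
  intro T
  obtain ⟨g, hg⟩ := T (fun i => tr S (sw e o i)) _ (fun i => ⟨_, rfl⟩) (orb S _ q (sh e p o op.symm).symm) I
    (inj _ I q _ fun i _ c => by
      have m : (K e o).comap (sh e p o op.symm : V →ₗ[F] V) ∈ tr S (sh e p o op.symm).symm :=
        mem_tr.2 <| h.2.2.1 _ _ hU fun x hx => by simpa using hx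
      refine (h.tr _).2.1 (sup _ i (fun y => ?_) ▸ (h.tr _).2.2.2 _ _ m (c ▸ hK i))
      by_cases io : i = o
      · exact ⟨e.symm (Pi.single o y - Pi.single p y), mem_K.2 (by simp [sh_apply, op, op.symm]), by simp [io, op]⟩
      by_cases ip : i = p
      · exact ⟨e.symm (Pi.single p y - Pi.single o y), mem_K.2 (by simp [sh_apply, op, op.symm]),
          by simp [ip, op.symm]⟩
      · exact ⟨e.symm (Pi.single i y), mem_K.2 (by simp [sh_apply, Ne.symm io, Ne.symm ip]), by simp⟩)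
  have m0 : (K e o).map (g : V →ₗ[F] V) ∈ tr S (sw e o o) := by
    have := hg o; rw [Function.update_of_ne oq] at this; exact this ▸ ⟨_, hK o, rfl⟩
  have m1 : (K e p).map (g : V →ₗ[F] V) ∈ tr S (sw e o p) := by
    have := hg p; rw [Function.update_of_ne pq] at this; exact this ▸ ⟨_, hK p, rfl⟩
  have m2 : (K e q).map (g : V →ₗ[F] V) ∈ tr S (sh e p o op.symm).symm := by
    have := hg q; rw [Function.update_self] at this; exact this ▸ ⟨_, hK q, rfl⟩
  refine h.2.1 (h.2.2.1 _ _ (h.2.2.2 _ _ hU (h.2.2.2 _ _ (mem_tr.1 m0) (h.2.2.2 _ _ (mem_tr.1 m1) (mem_tr.1 m2))))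
    fun y _ => ?_)
  have := sup (K e o ⊓ K e p) q fun y =>
    ⟨e.symm (Pi.single q y), ⟨mem_K.2 (by simp [oq]), mem_K.2 (by simp [pq])⟩, by simp⟩
  obtain ⟨w, ⟨w0, w1⟩, c, hc, s⟩ := mem_sup.1 (this ▸ mem_top : g.symm ((sh e p o op.symm).symm y) ∈ _)
  have ey : y = (sh e p o op.symm (g w) - sw e o o (g w) - sw e o p (g w)) +
      (sw e o o (g w) + (sw e o p (g w) + sh e p o op.symm (g c))) := by
    have : y = sh e p o op.symm (g (w + c)) := by simp [s]
    rw [this, map_add, map_add]; abel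
  have ss : ∀ i x, sw e o i (sw e o i x) = x := fun i x => e.injective <| funext fun l => by simp [sw_apply]
  rw [ey]
  refine add_mem_sup (mem_K.2 (by simp [sh_apply, sw_apply])) (add_mem_sup ⟨w, w0, ?_⟩ (add_mem_sup ⟨w, w1, ?_⟩
    ⟨c, hc, by simp⟩)) <;> simp [ss]

theorem result (F : Type u) (V : Type v) [Field F] [AddCommGroup V] [Module F V] (hV : ¬ Module.Finite F V)
    (S : Set (Submodule F V)) (hS : Maximal IsFilter S ∨ Maximal IsIdeal S) (k : ℕ) (hk : 3 ≤ k) :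
    ¬ KTrans k S := by
  obtain ⟨n, rfl⟩ : ∃ n, k = n + 3 := ⟨k - 3, by omega⟩
  have inf : Cardinal.aleph0 ≤ Module.rank F V := by rwa [← Module.rank_lt_aleph0_iff, not_lt] at hV
  obtain ⟨f⟩ : Nonempty ((V × V) ≃ₗ[F] V) := by
    rw [Module.nonempty_linearEquiv_iff_rank_eq, rank_prod', Cardinal.add_eq_self inf]
  let W : Submodule F V := (LinearMap.range (LinearMap.inl F V V)).map (f : V × V →ₗ[F] V)
  let C : Submodule F V := (LinearMap.range (LinearMap.inr F V V)).map (f : V × V →ₗ[F] V)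
  have hC : IsCompl W C := (orderIsoMapComap f).isCompl LinearMap.isCompl_range_inl_inr
  have rW : Module.rank F W = Module.rank F V :=
    (f.rank_map_eq _).trans (rank_range_of_injective _ LinearMap.inl_injective)
  have rC : Module.rank F C = Module.rank F V :=
    (f.rank_map_eq _).trans (rank_range_of_injective _ LinearMap.inr_injective)
  have rQ : ∀ U, IsCompl U W → Module.rank F U = Module.rank F V := fun U h =>
    ((quotientEquivOfIsCompl W U h.symm).symm.trans (quotientEquivOfIsCompl W C hC)).rank_eq.trans rC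
  have dec : ∀ A B : Submodule F V, IsCompl A B → Module.rank F A = Module.rank F V →
      Module.rank F B = Module.rank F V → ∃ e : V ≃ₗ[F] (Fin (n + 3) → A), A ≤ P e 0 ∧ K e 0 ≤ B := by
    intro A B h a b
    obtain ⟨φ⟩ : Nonempty (B ≃ₗ[F] (Fin (n + 2) → A)) := by
      rw [Module.nonempty_linearEquiv_iff_rank_eq, rank_fun_eq_lift_mul, a, b, Cardinal.lift_uzero,
        Cardinal.mul_eq_right inf ((Cardinal.natCast_lt_aleph0).le.trans inf) (by simp)]
    refine ⟨(prodEquivOfIsCompl A B h).symm ≪≫ₗ (LinearEquiv.refl F A).prodCongr φ ≪≫ₗ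
      Fin.consLinearEquiv F fun _ => A, fun x hx => mem_P.2 fun l hl => ?_, fun x hx => ?_⟩
    · obtain ⟨l, rfl⟩ := Fin.exists_succ_eq.2 hl
      have := prodEquivOfIsCompl_symm_apply_left A B h ⟨x, hx⟩
      simp only at this
      simp [this]
    · exact (prodEquivOfIsCompl_symm_apply_fst_eq_zero A B h).1 (by simpa using mem_K.1 hx)
  have o2 : (0 : Fin (n + 3)) ≠ 2 := fun c => absurd (show 0 = 2 from congrArg Fin.val c) (by decide)
  have p2 : (1 : Fin (n + 3)) ≠ 2 := fun c => absurd (show 1 = 2 from congrArg Fin.val c) (by decide)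
  rcases hS with hS | hS
  · obtain ⟨A, B, h, a, b, m⟩ : ∃ A B : Submodule F V, IsCompl A B ∧ Module.rank F A = Module.rank F V ∧
        Module.rank F B = Module.rank F V ∧ A ∈ S := by
      by_cases c : ∃ U ∈ S, U ⊓ W ≤ ⊥
      · obtain ⟨U, hU, d⟩ := c
        obtain ⟨A, le, h⟩ := (disjoint_iff_inf_le.2 d).exists_isCompl
        exact ⟨A, W, h, rQ A h, rW, hS.1.2.2.1 _ _ hU le⟩
      · refine ⟨W, C, hC, rW, rC, hS.2 (y := {X | ∃ U ∈ S, U ⊓ W ≤ X}) ⟨⟨⊤, hS.1.1, le_top⟩, c,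
          fun _ _ ⟨U, a, b⟩ d => ⟨U, a, b.trans d⟩, fun _ _ ⟨U, a, b⟩ ⟨U', a', b'⟩ => ⟨_, hS.1.2.2.2 _ _ a a',
            le_inf ((inf_le_inf_right _ inf_le_left).trans b) ((inf_le_inf_right _ inf_le_right).trans b')⟩⟩
          (fun X hX => ⟨X, hX, inf_le_left⟩) ⟨⊤, hS.1.1, inf_le_right⟩⟩
    obtain ⟨e, he, -⟩ := dec A B h a b
    exact coreF hS.1 e 0 1 2 (by simp) o2 p2 (hS.1.2.2.1 _ _ m he)
  · obtain ⟨A, B, h, a, b, m⟩ : ∃ A B : Submodule F V, IsCompl A B ∧ Module.rank F A = Module.rank F V ∧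
        Module.rank F B = Module.rank F V ∧ B ∈ S := by
      by_cases c : ∃ U ∈ S, ⊤ ≤ U ⊔ W
      · obtain ⟨U, hU, d⟩ := c
        obtain ⟨A, le, h⟩ := (codisjoint_iff_le_sup.2 d).exists_isCompl
        exact ⟨W, A, h.symm, rW, rQ A h, hS.1.2.2.1 _ _ hU le⟩
      · refine ⟨C, W, hC.symm, rC, rW, hS.2 (y := {X | ∃ U ∈ S, X ≤ U ⊔ W}) ⟨⟨⊥, hS.1.1, bot_le⟩, c,
          fun _ _ ⟨U, a, b⟩ d => ⟨U, a, d.trans b⟩, fun _ _ ⟨U, a, b⟩ ⟨U', a', b'⟩ => ⟨_, hS.1.2.2.2 _ _ a a',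
            sup_le (b.trans (sup_le_sup_right le_sup_left _)) (b'.trans (sup_le_sup_right le_sup_right _))⟩⟩
          (fun X hX => ⟨X, hX, le_sup_left⟩) ⟨⊥, hS.1.1, le_sup_right⟩⟩
    obtain ⟨e, -, he⟩ := dec A B h a b
    exact coreI hS.1 e 0 1 2 (by simp) o2 p2 (hS.1.2.2.1 _ _ m he)

end Pool.Agent.Results.MP_5cf805_al.Two
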